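import Pool.Agent.Q36.QD.FibC

/-!
# Smooth quasi-diagonals which are not elliptic curves

For every complex elliptic curve `E : y² = x³ + A x + B` there is a smooth quasi-diagonal
`S ⊂ E × E` over `(E, 𝒪(e))` of genus at least two: the curve `(x(P) - t) (x(Q) - t) = c` for general
constants `t`, `c`. The line bundles `p_1 ^* 𝒪(2 e)` and `p_2 ^* 𝒪(2 e)` coincide on `S`, since
`x(P) - t` and `x(Q) - t` differ by a Möbius transformation.
-/

namespace Pool.Agent.Results.MP_d64a6e_ag.SmoothHigherGenus

open Q36.QD

/-- For every elliptic curve `E : y² = x³ + A x + B` over `ℂ` there is a smooth curve `S ⊂ E ^ 2`, with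
function field `K` and generic point `P`, of genus at least two, which is a quasi-diagonal over
`(E, 𝒪(e))`, where `e` is the origin. -/
theorem result {A B : ℂ} (hD : 4 * A ^ 3 + 27 * B ^ 2 ≠ 0) :
    ∃ (K : Type) (_ : Field K) (_ : Algebra ℂ K) (P : Fin 2 → EK A B K),
      IsQuasiDiagonal (Finsupp.single 0 1) P ∧ IsSmooth P ∧ 2 ≤ geomGenus K :=
  exists_smooth hD

end Pool.Agent.Results.MP_d64a6e_ag.SmoothHigherGenus
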